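import Pool.Agent.Lib.MP_2b07f9_gt.Mfd.Main

/-! The local Chern conjecture in the unit sphere of Euclidean five-space, for arbitrary connected
immersed manifolds: a connected minimal immersed hypersurface with constant scalar curvature,
complete or not, two-sided or not, is isoparametric. -/

set_option autoImplicit false

open scoped Manifold ContDiff

namespace Pool.Agent.Results.MP_2b07f9_gt.IsoparametricManifold

open Bry.Mfd

/-- Let `M` be a connected smooth 3-manifold and `F : M → S⁴ ⊂ ℝ⁵` a smooth immersion. Near each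
point there is a smooth unit normal field, the shape operators with respect to it exist and are
unique, and if `F` is minimal and the squared length of its second fundamental form is constant,
then `F` is isoparametric: all its principal curvatures are constant. -/
theorem result (M : Type*) [TopologicalSpace M] [ChartedSpace (EuclideanSpace ℝ (Fin 3)) M]
    [IsManifold 𝓘(ℝ, EuclideanSpace ℝ (Fin 3)) ∞ M] [ConnectedSpace M]
    (F : M → EuclideanSpace ℝ (Fin 5)) (hF : IsHypersurface (EuclideanSpace ℝ (Fin 3)) F) :
    (∀ q : M, ∃ (V : Set M) (ν : M → EuclideanSpace ℝ (Fin 5)),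
      IsUnitNormal (EuclideanSpace ℝ (Fin 3)) F V ν ∧ q ∈ V) ∧
    (∀ (V : Set M) (ν : M → EuclideanSpace ℝ (Fin 5)),
      IsUnitNormal (EuclideanSpace ℝ (Fin 3)) F V ν →
      ∀ q ∈ V, ∃! A, IsShapeOperator (EuclideanSpace ℝ (Fin 3)) F ν q A) ∧
    (IsMinimal (EuclideanSpace ℝ (Fin 3)) F →
      (∃ c : ℝ, HasConstantSigma (EuclideanSpace ℝ (Fin 3)) F c) →
      IsIsoparametric (EuclideanSpace ℝ (Fin 3)) F) := by
  refine ⟨exists_normal hF, fun V ν hν q hq => ?_, fun hmin hc => ?_⟩
  · obtain ⟨A, hA⟩ := exists_shape hF hν hq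
    exact ⟨A, hA, fun B hB => shape_unique hF hB hA⟩
  · obtain ⟨c, hc⟩ := hc
    exact main hF hmin hc

end Pool.Agent.Results.MP_2b07f9_gt.IsoparametricManifold
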